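import Pool.Agent.Helper27.PHV.Chk

set_option autoImplicit false
set_option maxRecDepth 100000
set_option maxHeartbeats 0

namespace Pool.Agent.Helper27.PHV

theorem bb_a8 :
    bb false 2515 1497 1408 859 550 60 0 3072 3072 6144 0 3072 0 8192 4096 8192 = true := by
  decide +kernel

end Pool.Agent.Helper27.PHV
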