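import Mathlib.Data.Nat.Basic

/-!
# MP_8bf717_co, upper bound `H ≤ 6/5`: the branch-and-bound checker (integer arithmetic)
-/

set_option autoImplicit false

namespace Pool.Agent.Helper27.PHV

/-- scale -/
def NN : Nat := 12288

def J3f (n : Nat) : Nat := NN * NN + 12 * n * n - 4 * n * NN

/-- lower bound of `3 N² J` -/
def Jlo (n0 n1 : Nat) : Nat :=
  if Nat.ble n0 2048 && Nat.ble 2048 n1 then 100663296 else min (J3f n0) (J3f n1)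

def chk (mode : Bool) (n0 n1 A0 A1 B0 B1 U0 U1 V0 V1 : Nat) : Bool :=
  let J := Jlo n0 n1
  let q3 := J + 3 * (U0 * A0)
  Nat.blt (3 * NN * U1 * (NN - 2 * A0)) (J * A0 + 3 * (V0 * A0 * B0)) ||
  Nat.blt (3 * NN * V1 * (NN - 2 * B0)) (J * B0 + 3 * (U0 * A0 * B0)) ||
  Nat.blt (4 * NN) (3 * (U0 + V0) + 10 * n0) ||
  Nat.blt (3 * (NN * NN)) (2 * q3) ||
  Nat.blt ((NN - 4 * n0) * (A0 * B0)) (3 * (U0 * (A0 - n1) * B0 + V0 * (B0 - n1) * A0)) ||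
  ((Nat.blt A1 B0 || Nat.blt ((2 * NN + 4 * n1) * A1 * NN) (J * NN + q3 * (A1 - min B1 A1))) &&
   (Nat.ble B1 A0 || Nat.blt (3 * NN * (min A1 B1 + B1)) (2 * J + 2 * ((NN - 4 * n1) * min A1 B1)))) ||
  (let R := A1 * B1 + U0 * B1 + V0 * A1
   let X3 := 4 * NN - 10 * n0 - 3 * (U0 + V0)
   let W3 := J + 3 * (U0 * A0 + V0 * B0)
   if mode then
     let t3 := (NN - A0) * (3 * (NN * NN) - q3) - (NN - 4 * n1) * (NN * NN)
     let M := q3 * B1 + 3 * (NN * NN) * V0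
     Nat.blt 0 A1 && Nat.blt 0 B1 &&
     Nat.ble (3 * (t3 * t3) * (B1 * R) + 4 * (NN * NN) * (X3 * X3) * (A1 * B1) * M)
       (12 * (NN * NN) * W3 * (M * R))
   else
     Nat.blt 0 A0 && Nat.blt 0 B0 &&
     Nat.ble (9 * ((NN - A0) * (NN - A0)) * (4 * (U1 * V1) - A0 * B0) * (A1 * B1)
       + 4 * (X3 * X3) * (A0 * B0) * (A1 * B1)) (12 * R * W3 * (A0 * B0)))

/-- branch and bound; the scales are integers -/
def bb (mode : Bool) (s0 s1 s2 s3 s4 : Nat) :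
    Nat → Nat → Nat → Nat → Nat → Nat → Nat → Nat → Nat → Nat → Nat → Bool
  | 0, _, _, _, _, _, _, _, _, _, _ => false
  | k + 1, n0, n1, A0, A1, B0, B1, U0, U1, V0, V1 =>
    chk mode n0 n1 A0 A1 B0 B1 U0 U1 V0 V1 ||
    (let w0 := s0 * (n1 - n0)
     let w1 := s1 * (A1 - A0)
     let w2 := s2 * (B1 - B0)
     let w3 := s3 * (U1 - U0)
     let w4 := s4 * (V1 - V0)
     if w1 ≤ w0 ∧ w2 ≤ w0 ∧ w3 ≤ w0 ∧ w4 ≤ w0 then
       let m := (n0 + n1) / 2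
       bb mode s0 s1 s2 s3 s4 k n0 m A0 A1 B0 B1 U0 U1 V0 V1 &&
       bb mode s0 s1 s2 s3 s4 k m n1 A0 A1 B0 B1 U0 U1 V0 V1
     else if w2 ≤ w1 ∧ w3 ≤ w1 ∧ w4 ≤ w1 then
       let m := (A0 + A1) / 2
       bb mode s0 s1 s2 s3 s4 k n0 n1 A0 m B0 B1 U0 U1 V0 V1 &&
       bb mode s0 s1 s2 s3 s4 k n0 n1 m A1 B0 B1 U0 U1 V0 V1
     else if w3 ≤ w2 ∧ w4 ≤ w2 then
       let m := (B0 + B1) / 2
       bb mode s0 s1 s2 s3 s4 k n0 n1 A0 A1 B0 m U0 U1 V0 V1 &&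
       bb mode s0 s1 s2 s3 s4 k n0 n1 A0 A1 m B1 U0 U1 V0 V1
     else if w4 ≤ w3 then
       let m := (U0 + U1) / 2
       bb mode s0 s1 s2 s3 s4 k n0 n1 A0 A1 B0 B1 U0 m V0 V1 &&
       bb mode s0 s1 s2 s3 s4 k n0 n1 A0 A1 B0 B1 m U1 V0 V1
     else
       let m := (V0 + V1) / 2
       bb mode s0 s1 s2 s3 s4 k n0 n1 A0 A1 B0 B1 U0 U1 V0 m &&
       bb mode s0 s1 s2 s3 s4 k n0 n1 A0 A1 B0 B1 U0 U1 m V1)

end Pool.Agent.Helper27.PHV
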