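import Pool.Agent.Helper27.PHV.Sound
import Pool.Agent.Helper27.PHV.CBeta
import Pool.Agent.Helper27.PHV.CA1
import Pool.Agent.Helper27.PHV.CA2
import Pool.Agent.Helper27.PHV.CA3
import Pool.Agent.Helper27.PHV.CA4
import Pool.Agent.Helper27.PHV.CA5

/-!
# MP_8bf717_co, upper bound `H ≤ 6/5`: the core inequality
-/

set_option autoImplicit false

namespace Pool.Agent.Helper27.PHV

/-- soundness of the branch and bound -/
theorem bb_sound {mode : Bool} {s0 s1 s2 s3 s4 : ℕ} {n a b P Q : ℝ}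
    (h : Pt (NN : ℝ) n a b P Q) (k : ℕ) : ∀ (n0 n1 A0 A1 B0 B1 U0 U1 V0 V1 : ℕ),
    (n0 : ℝ) ≤ n → n ≤ n1 → (A0 : ℝ) ≤ a → a ≤ A1 → (B0 : ℝ) ≤ b → b ≤ B1 →
    (U0 : ℝ) ≤ P * a → P * a ≤ U1 → (V0 : ℝ) ≤ Q * b → Q * b ≤ V1 →
    bb mode s0 s1 s2 s3 s4 k n0 n1 A0 A1 B0 B1 U0 U1 V0 V1 = true →
    Goal mode (NN : ℝ) n a b P Q := by
  induction k with
  | zero =>
    intro n0 n1 A0 A1 B0 B1 U0 U1 V0 V1 _ _ _ _ _ _ _ _ _ _ hb
    simp [bb] at hb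
  | succ k ih =>
    intro n0 n1 A0 A1 B0 B1 U0 U1 V0 V1 h1 h2 h3 h4 h5 h6 h7 h8 h9 h10 hb
    rw [bb, Bool.or_eq_true] at hb
    rcases hb with hb | hb
    · exact chk_sound h h1 h2 h3 h4 h5 h6 h7 h8 h9 h10 hb
    · simp only at hb
      split_ifs at hb with c1 c2 c3 c4
      · rw [Bool.and_eq_true] at hb
        obtain ⟨k1, k2⟩ := hb
        rcases le_total n (((n0 + n1) / 2 : ℕ) : ℝ) with hm | hm
        · exact ih _ _ _ _ _ _ _ _ _ _ h1 hm h3 h4 h5 h6 h7 h8 h9 h10 k1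
        · exact ih _ _ _ _ _ _ _ _ _ _ hm h2 h3 h4 h5 h6 h7 h8 h9 h10 k2
      · rw [Bool.and_eq_true] at hb
        obtain ⟨k1, k2⟩ := hb
        rcases le_total a (((A0 + A1) / 2 : ℕ) : ℝ) with hm | hm
        · exact ih _ _ _ _ _ _ _ _ _ _ h1 h2 h3 hm h5 h6 h7 h8 h9 h10 k1
        · exact ih _ _ _ _ _ _ _ _ _ _ h1 h2 hm h4 h5 h6 h7 h8 h9 h10 k2
      · rw [Bool.and_eq_true] at hb
        obtain ⟨k1, k2⟩ := hb
        rcases le_total b (((B0 + B1) / 2 : ℕ) : ℝ) with hm | hm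
        · exact ih _ _ _ _ _ _ _ _ _ _ h1 h2 h3 h4 h5 hm h7 h8 h9 h10 k1
        · exact ih _ _ _ _ _ _ _ _ _ _ h1 h2 h3 h4 hm h6 h7 h8 h9 h10 k2
      · rw [Bool.and_eq_true] at hb
        obtain ⟨k1, k2⟩ := hb
        rcases le_total (P * a) (((U0 + U1) / 2 : ℕ) : ℝ) with hm | hm
        · exact ih _ _ _ _ _ _ _ _ _ _ h1 h2 h3 h4 h5 h6 h7 hm h9 h10 k1
        · exact ih _ _ _ _ _ _ _ _ _ _ h1 h2 h3 h4 h5 h6 hm h8 h9 h10 k2
      · rw [Bool.and_eq_true] at hb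
        obtain ⟨k1, k2⟩ := hb
        rcases le_total (Q * b) (((V0 + V1) / 2 : ℕ) : ℝ) with hm | hm
        · exact ih _ _ _ _ _ _ _ _ _ _ h1 h2 h3 h4 h5 h6 h7 h8 h9 hm k1
        · exact ih _ _ _ _ _ _ _ _ _ _ h1 h2 h3 h4 h5 h6 h7 h8 hm h10 k2

/-- the whole box -/
theorem goal_of_pt {n a b P Q : ℝ} (h : Pt (NN : ℝ) n a b P Q) (mode : Bool) :
    Goal mode (NN : ℝ) n a b P Q := by
  have hN := NN_val
  have p1 := h.n1
  have p2 := h.a1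
  have p3 := h.b1
  have p4 := h.F3
  have p5 := h.n0
  rw [hN] at p1 p2 p3 p4
  have pu : 0 ≤ P * a := mul_nonneg h.P0 h.a0
  have pv : 0 ≤ Q * b := mul_nonneg h.Q0 h.b0
  have c0 : ((0 : ℕ) : ℝ) ≤ n := by simpa using h.n0
  have c1 : n ≤ ((3072 : ℕ) : ℝ) := by norm_num; linarith
  have d0 : ((0 : ℕ) : ℝ) ≤ a := by simpa using h.a0
  have d1 : a ≤ ((6144 : ℕ) : ℝ) := by norm_num; linarith
  have e0 : ((0 : ℕ) : ℝ) ≤ b := by simpa using h.b0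
  have e1 : b ≤ ((6144 : ℕ) : ℝ) := by norm_num; linarith
  have f0 : ((0 : ℕ) : ℝ) ≤ P * a := by simpa using pu
  have f1 : P * a ≤ ((16384 : ℕ) : ℝ) := by norm_num; linarith
  have g0 : ((0 : ℕ) : ℝ) ≤ Q * b := by simpa using pv
  have g1 : Q * b ≤ ((16384 : ℕ) : ℝ) := by norm_num; linarith
  cases mode
  · rcases le_total (P * a) ((8192 : ℕ) : ℝ) with k1 | k1
    · rcases le_total a ((3072 : ℕ) : ℝ) with k2 | k2
      · rcases le_total (P * a) ((4096 : ℕ) : ℝ) with k3 | k3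
        · exact bb_sound h 60 _ _ _ _ _ _ _ _ _ _ c0 c1 d0 k2 e0 e1 f0 k3 g0 g1 bb_a1
        · exact bb_sound h 60 _ _ _ _ _ _ _ _ _ _ c0 c1 d0 k2 e0 e1 k3 k1 g0 g1 bb_a2
      · rcases le_total (Q * b) ((8192 : ℕ) : ℝ) with k4 | k4
        · rcases le_total b ((3072 : ℕ) : ℝ) with k5 | k5
          · rcases le_total (Q * b) ((4096 : ℕ) : ℝ) with k6 | k6
            · rcases le_total (Q * b) ((2048 : ℕ) : ℝ) with k7 | k7
              · exact bb_sound h 60 _ _ _ _ _ _ _ _ _ _ c0 c1 k2 d1 e0 k5 f0 k1 g0 k7 bb_a6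
              · exact bb_sound h 60 _ _ _ _ _ _ _ _ _ _ c0 c1 k2 d1 e0 k5 f0 k1 k7 k6 bb_a7
            · exact bb_sound h 60 _ _ _ _ _ _ _ _ _ _ c0 c1 k2 d1 e0 k5 f0 k1 k6 k4 bb_a8
          · exact bb_sound h 60 _ _ _ _ _ _ _ _ _ _ c0 c1 k2 d1 k5 e1 f0 k1 g0 k4 bb_a5
        · exact bb_sound h 60 _ _ _ _ _ _ _ _ _ _ c0 c1 k2 d1 e0 e1 f0 k1 k4 g1 bb_a4
    · exact bb_sound h 60 _ _ _ _ _ _ _ _ _ _ c0 c1 d0 d1 e0 e1 k1 f1 g0 g1 bb_a3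
  · exact bb_sound h 60 _ _ _ _ _ _ _ _ _ _ c0 c1 d0 d1 e0 e1 f0 f1 g0 g1 bb_beta

/-- `J_b` -/
noncomputable def Jb (ν : ℝ) : ℝ := (1 - 4 * ν) / 3 + 4 * ν ^ 2

/-- the constraints of the core inequality -/
structure Pc (ν A B P Q : ℝ) : Prop where
  n0 : 0 ≤ ν
  n1 : 4 * ν ≤ 1
  a0 : 0 ≤ A
  a1 : 2 * A ≤ 1
  b0 : 0 ≤ B
  b1 : 2 * B ≤ 1
  P0 : 0 ≤ P
  Q0 : 0 ≤ Q
  F1 : Jb ν + Q * B ^ 2 ≤ P * (1 - 2 * A)
  F2 : Jb ν + P * A ^ 2 ≤ Q * (1 - 2 * B)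
  F3 : P * A + Q * B ≤ (4 - 10 * ν) / 3
  F4 : P * max (A - ν) 0 + Q * max (B - ν) 0 ≤ (1 - 4 * ν) / 3
  F5a : B ≤ A → Jb ν ≤ (1 - (1 - 4 * ν) / 3) * A - (Jb ν + P * A ^ 2) * (A - B)
  F5b : A ≤ B → Jb ν ≤ (A + B) / 2 - (1 - 4 * ν) / 3 * A
  F6 : Jb ν + P * A ^ 2 ≤ 1 / 2

theorem J3_scale (N ν : ℝ) : J3 N (N * ν) = 3 * (N * N) * Jb ν := by
  unfold J3 Jb
  ring

theorem pt_of_pc {ν A B P Q N : ℝ} (hN : 0 < N) (h : Pc ν A B P Q) :
    Pt N (N * ν) (N * A) (N * B) P Q where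
  n0 := mul_nonneg hN.le h.n0
  n1 := by have := mul_le_mul_of_nonneg_left h.n1 hN.le; linarith
  a0 := mul_nonneg hN.le h.a0
  a1 := by have := mul_le_mul_of_nonneg_left h.a1 hN.le; linarith
  b0 := mul_nonneg hN.le h.b0
  b1 := by have := mul_le_mul_of_nonneg_left h.b1 hN.le; linarith
  P0 := h.P0
  Q0 := h.Q0
  F1 := by
    rw [J3_scale]
    have := mul_le_mul_of_nonneg_left h.F1 (mul_nonneg (mul_nonneg (by norm_num : (0 : ℝ) ≤ 3)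
      (pow_nonneg hN.le 3)) h.a0)
    nlinarith
  F2 := by
    rw [J3_scale]
    have := mul_le_mul_of_nonneg_left h.F2 (mul_nonneg (mul_nonneg (by norm_num : (0 : ℝ) ≤ 3)
      (pow_nonneg hN.le 3)) h.b0)
    nlinarith
  F3 := by
    have := mul_le_mul_of_nonneg_left h.F3 (mul_nonneg (by norm_num : (0 : ℝ) ≤ 3) hN.le)
    nlinarith
  F4 := by
    have e1 : max (N * A - N * ν) 0 = N * max (A - ν) 0 := by
      rw [mul_max_of_nonneg _ _ hN.le, mul_sub, mul_zero]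
    have e2 : max (N * B - N * ν) 0 = N * max (B - ν) 0 := by
      rw [mul_max_of_nonneg _ _ hN.le, mul_sub, mul_zero]
    rw [e1, e2]
    have := mul_le_mul_of_nonneg_left h.F4 (mul_nonneg (by norm_num : (0 : ℝ) ≤ 3) hN.le)
    nlinarith
  F5a := by
    intro hab
    have hab' : B ≤ A := le_of_mul_le_mul_left hab hN
    rw [J3_scale]
    have := mul_le_mul_of_nonneg_left (h.F5a hab') (mul_nonneg (by norm_num : (0 : ℝ) ≤ 3)
      (pow_nonneg hN.le 3))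
    nlinarith
  F5b := by
    intro hab
    have hab' : A ≤ B := le_of_mul_le_mul_left hab hN
    rw [J3_scale]
    have := mul_le_mul_of_nonneg_left (h.F5b hab') (mul_nonneg (by norm_num : (0 : ℝ) ≤ 6)
      (pow_nonneg hN.le 2))
    nlinarith
  F6 := by
    rw [J3_scale]
    have := mul_le_mul_of_nonneg_left h.F6 (mul_nonneg (by norm_num : (0 : ℝ) ≤ 6)
      (pow_nonneg hN.le 2))
    nlinarith

theorem Jb_ge (ν : ℝ) : 2 / 9 ≤ Jb ν := by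
  unfold Jb
  nlinarith [sq_nonneg (ν - 1 / 6)]

/-- Core inequality, second pentagon. -/
theorem core_beta {ν A B P Q : ℝ} (h : Pc ν A B P Q) :
    max ((1 - A) * (1 - (Jb ν + P * A ^ 2)) - (1 - 4 * ν) / 3) 0 ^ 2
        / (4 * (Jb ν + P * A ^ 2 + Q))
      + ((4 - 10 * ν) / 3 - (P * A + Q * B)) ^ 2 / (1 + P + Q) ≤
      Jb ν + P * A ^ 2 + Q * B ^ 2 := by
  have hN : (0 : ℝ) < (NN : ℝ) := by rw [NN_val]; norm_num
  have g := goal_of_pt (pt_of_pc hN h) true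
  set N : ℝ := (NN : ℝ) with hNd
  simp only [Goal, if_true, J3_scale] at g
  have hJ := Jb_ge ν
  have hq : 0 < Jb ν + P * A ^ 2 + Q := by
    have := mul_nonneg h.P0 (sq_nonneg A)
    have := h.Q0
    linarith
  have hE : 0 < 1 + P + Q := by
    have := h.P0
    have := h.Q0
    linarith
  have e1 : max ((N - N * A) * (3 * (N * N) - (3 * (N * N) * Jb ν + 3 * (P * (N * A)) * (N * A)))
      - (N - 4 * (N * ν)) * (N * N)) 0 =
      3 * N ^ 3 * max ((1 - A) * (1 - (Jb ν + P * A ^ 2)) - (1 - 4 * ν) / 3) 0 := by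
    rw [mul_max_of_nonneg _ _ (by positivity : 0 ≤ 3 * N ^ 3), mul_zero]
    congr 1
    ring
  rw [e1] at g
  generalize max ((1 - A) * (1 - (Jb ν + P * A ^ 2)) - (1 - 4 * ν) / 3) 0 = t at g ⊢
  have e2 : 3 * (3 * N ^ 3 * t) ^ 2 / (3 * (N * N) * Jb ν + 3 * (P * (N * A)) * (N * A) +
      3 * (N * N) * Q) = 36 * N ^ 4 * (t ^ 2 / (4 * (Jb ν + P * A ^ 2 + Q))) := by
    have e3 : 3 * (N * N) * Jb ν + 3 * (P * (N * A)) * (N * A) + 3 * (N * N) * Q =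
        3 * N ^ 2 * (Jb ν + P * A ^ 2 + Q) := by ring
    rw [e3]
    have hN' := hN.ne'
    have hq' := hq.ne'
    field_simp
    ring
  have e4 : 4 * (N * N) * (4 * N - 10 * (N * ν) - 3 * (P * (N * A) + Q * (N * B))) ^ 2 /
      (1 + P + Q) = 36 * N ^ 4 * (((4 - 10 * ν) / 3 - (P * A + Q * B)) ^ 2 / (1 + P + Q)) := by
    have e5 : 4 * N - 10 * (N * ν) - 3 * (P * (N * A) + Q * (N * B)) =
        3 * N * ((4 - 10 * ν) / 3 - (P * A + Q * B)) := by ring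
    rw [e5]
    ring
  have e6 : 12 * (N * N) * (3 * (N * N) * Jb ν + 3 * (P * (N * A) * (N * A) + Q * (N * B) * (N * B)))
      = 36 * N ^ 4 * (Jb ν + P * A ^ 2 + Q * B ^ 2) := by ring
  rw [e2, e4, e6, ← mul_add] at g
  exact le_of_mul_le_mul_left g (by positivity)

/-- Core inequality, first pentagon. -/
theorem core_alpha {ν A B P Q : ℝ} (h : Pc ν A B P Q) :
    (1 - A) ^ 2 * max (P * Q - 1 / 4) 0
      + ((4 - 10 * ν) / 3 - (P * A + Q * B)) ^ 2 ≤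
      (1 + P + Q) * (Jb ν + P * A ^ 2 + Q * B ^ 2) := by
  have hN : (0 : ℝ) < (NN : ℝ) := by rw [NN_val]; norm_num
  have g := goal_of_pt (pt_of_pc hN h) false
  set N : ℝ := (NN : ℝ) with hNd
  simp only [Goal, Bool.false_eq_true, if_false, J3_scale] at g
  have e1 : max (4 * (P * Q) - 1) 0 = 4 * max (P * Q - 1 / 4) 0 := by
    rw [mul_max_of_nonneg _ _ (by norm_num : (0 : ℝ) ≤ 4), mul_zero]
    congr 1
    ring
  rw [e1] at g
  generalize max (P * Q - 1 / 4) 0 = t at g ⊢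
  have e2 : 9 * (N - N * A) ^ 2 * (4 * t) + 4 * (4 * N - 10 * (N * ν) -
      3 * (P * (N * A) + Q * (N * B))) ^ 2 =
      36 * N ^ 2 * ((1 - A) ^ 2 * t + ((4 - 10 * ν) / 3 - (P * A + Q * B)) ^ 2) := by ring
  have e3 : 12 * (1 + P + Q) * (3 * (N * N) * Jb ν + 3 * (P * (N * A) * (N * A) +
      Q * (N * B) * (N * B))) =
      36 * N ^ 2 * ((1 + P + Q) * (Jb ν + P * A ^ 2 + Q * B ^ 2)) := by ring
  rw [e2, e3] at g
  exact le_of_mul_le_mul_left g (by positivity)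

end Pool.Agent.Helper27.PHV
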