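import Pool.Agent.Helper27.PHU.Defs
import Pool.Agent.Helper83.PHU.Tools
import Pool.Agent.Helper85.PHU.Gab

/-!
# MP_8bf717_co, upper bound `H ≤ 6/5`: definitions (project PHV)

A framed body `K` with features `lam rho e1 f1 e2 f2`; reduced quantities:
`W = 1 + lam + rho`, `T = 1 - 2b`, `S = 2b`, `G = gg c1 …`, `H = gg c2 …`, `P = pp T c1`,
`Q = pp S c2`, `A = xi (1/2 - b) c1 …`, `B = xi b c2 …`. Every hexagon has area `ar W (G+H) J`.
-/

set_option autoImplicit false

namespace Pool.Agent.Helper27.PHV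

/-- `τ g`: twice the feature area of the roof (floor) over the width -/
noncomputable def gg (c lam rho e f : ℝ) : ℝ := 2 * (c * e + (1 - c) * f) / (1 + lam + rho)

/-- `τ p` -/
noncomputable def pp (T c : ℝ) : ℝ := T * c / (1 - c)

/-- the unbalance `ξ` of the flush roof (`a = 1/2 - b`) or floor (`a = b`) -/
noncomputable def xi (a c lam rho e f : ℝ) : ℝ :=
  ((1 - c) * (e - f) / a - (1 - c) / c * lam + rho) / (1 + lam + rho)

/-- the area of a hexagon of type `J`, width `W`, feature sum `g` -/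
noncomputable def ar (W g J : ℝ) : ℝ := W - W ^ 2 / 4 + W ^ 2 * g / 2 + W ^ 2 * J / 4

/-- all reduced quantities of a framed body with features -/
structure Red (b c1 c2 lam rho e1 f1 e2 f2 W T S G H P Q A B X : ℝ) : Prop where
  eW : W = 1 + lam + rho
  eT : T = 1 - 2 * b
  eS : S = 2 * b
  eG : G = gg c1 lam rho e1 f1
  eH : H = gg c2 lam rho e2 f2
  eP : P = pp (1 - 2 * b) c1
  eQ : Q = pp (2 * b) c2
  eA : A = xi (1 / 2 - b) c1 lam rho e1 f1
  eB : B = xi b c2 lam rho e2 f2
  eX : X = 2 / W - 1 + G + H - P * A - Q * B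

end Pool.Agent.Helper27.PHV
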