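import Pool.Agent.Helper27.PHV.Num
import Pool.Agent.Helper27.PHV.Defs
import Pool.Agent.Helper95.PHV.Bal
import Pool.Agent.Helper70.PHV.One
import Pool.Agent.Helper39.PHV.Pent
import Pool.Agent.Helper81.PHU.One
import Pool.Agent.Helper45.PHU.Feat
import Pool.Agent.Helper23.PHU.Area

/-!
# MP_8bf717_co, upper bound `H ≤ 6/5`: a framed body lies in p-hexagons of area close to `6/5`
times its own area
-/

set_option autoImplicit false

open MeasureTheory Set

namespace Pool.Agent.Helper27.PHV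

open Pool.Agent.Helper27.PHU Pool.Agent.Helper37.PH Pool.Agent.Helper61.PH
open Pool.Agent.Helper83.PHU Pool.Agent.Helper85.PHU Pool.Agent.Helper45.PHU
open Pool.Agent.Helper23.PHU

theorem vol_ge {K : Set (ℝ × ℝ)}
    {b c1 c2 r1 r2 l1 l2 lam rho e1 f1 e2 f2 W T S G H P Q A B X : ℝ}
    (h : Frame K b c1 c2 r1 r2 l1 l2) (hf : Feat K b c1 c2 lam rho e1 f1 e2 f2)
    (hR : Red b c1 c2 lam rho e1 f1 e2 f2 W T S G H P Q A B X) :
    1 / 2 + W / 4 + W * (G + H) / 4 ≤ (volume K).toReal := by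
  have hA := area_ge h hf
  have hW : (0 : ℝ) < 1 + lam + rho := by linarith [hf.lam0, hf.rho0]
  refine le_trans (le_of_eq ?_) hA
  rw [hR.eG, hR.eH, hR.eW]
  unfold gg
  field_simp
  ring

/-- the value of `J` up to which a hexagon is good enough -/
noncomputable def Jst (W g : ℝ) : ℝ := 1 - 4 / W - 2 * g + 6 / 5 * (1 / W) * (2 / W + 1 + g)

theorem ar_jst {W g : ℝ} (hW : 0 < W) :
    ar W g (Jst W g) = 6 / 5 * (1 / 2 + W / 4 + W * g / 4) := by
  unfold ar Jst
  field_simp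
  ring

theorem jst_eq {W g : ℝ} (hW : 0 < W) :
    Jst W g = Jb (1 - 1 / W) +
      (4 / 5 + 6 / 5 * (1 - 1 / W)) * ((1 - 4 * (1 - 1 / W)) / 3 - g) := by
  unfold Jst Jb
  field_simp
  ring

theorem jst_lt {K : Set (ℝ × ℝ)}
    {b c1 c2 r1 r2 l1 l2 lam rho e1 f1 e2 f2 W T S G H P Q A B X J : ℝ}
    (h : Frame K b c1 c2 r1 r2 l1 l2) (hf : Feat K b c1 c2 lam rho e1 f1 e2 f2)
    (hR : Red b c1 c2 lam rho e1 f1 e2 f2 W T S G H P Q A B X) (hW : 0 < W)
    (hn : ¬ Cov K (6 / 5 * (volume K).toReal)) (hJ : Cov K (ar W (G + H) J)) :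
    Jst W (G + H) < J := by
  by_contra hc
  push Not at hc
  apply hn
  refine cov_mono hJ subset_rfl ?_
  have hV := vol_ge h hf hR
  have e1 : ar W (G + H) J ≤ ar W (G + H) (Jst W (G + H)) := by
    unfold ar
    have := mul_le_mul_of_nonneg_left hc (by positivity : 0 ≤ W ^ 2 / 4)
    linarith
  rw [ar_jst hW] at e1
  linarith

theorem g_lt {K : Set (ℝ × ℝ)}
    {b c1 c2 r1 r2 l1 l2 lam rho e1 f1 e2 f2 W T S G H P Q A B X : ℝ}
    (h : Frame K b c1 c2 r1 r2 l1 l2) (hf : Feat K b c1 c2 lam rho e1 f1 e2 f2)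
    (hR : Red b c1 c2 lam rho e1 f1 e2 f2 W T S G H P Q A B X) (hW : 0 < W)
    (hn : ¬ Cov K (6 / 5 * (volume K).toReal)) :
    G + H < (1 - 4 * (1 - 1 / W)) / 3 := by
  by_contra hc
  push Not at hc
  apply hn
  refine cov_mono (Pool.Agent.Helper81.PHU.frame_one h) subset_rfl ?_
  have hV := vol_ge h hf hR
  have e1 : W * ((1 - 4 * (1 - 1 / W)) / 3) ≤ W * (G + H) :=
    mul_le_mul_of_nonneg_left hc hW.le
  have e2 : W * ((1 - 4 * (1 - 1 / W)) / 3) = 4 / 3 - W := by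
    field_simp
    ring
  linarith

/-- the frame with `b ≤ 1/4` and nonnegative balance -/
theorem fin_pos {K : Set (ℝ × ℝ)}
    {b c1 c2 r1 r2 l1 l2 lam rho e1 f1 e2 f2 W T S G H P Q A B X : ℝ}
    (h : Frame K b c1 c2 r1 r2 l1 l2) (hf : Feat K b c1 c2 lam rho e1 f1 e2 f2)
    (hR : Red b c1 c2 lam rho e1 f1 e2 f2 W T S G H P Q A B X) (hb : b ≤ 1 / 4)
    (htot : 0 ≤ A * (T + P) + B * (S + Q)) : Cov K (6 / 5 * (volume K).toReal) := by
  obtain ⟨hP, hQ, hG, hH, hX, kA, kB, ht, -, -, -, hT0, hS0, hTS, hW1⟩ :=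
    Pool.Agent.Helper70.PHV.facts h hf hR
  have hW : 0 < W := by linarith
  by_contra hn
  have hg := g_lt h hf hR hW hn
  set Js := Jst W (G + H) with hJsd
  have key : ∀ {J : ℝ}, Cov K (ar W (G + H) J) → Js < J := fun hJ => jst_lt h hf hR hW hn hJ
  have hJs : Js = Jb (1 - 1 / W) +
      (4 / 5 + 6 / 5 * (1 - 1 / W)) * ((1 - 4 * (1 - 1 / W)) / 3 - (G + H)) := jst_eq hW
  have hν : 0 ≤ 1 - 1 / W := by
    rw [sub_nonneg, div_le_one hW]
    exact hW1
  have hν1 : 4 * (1 - 1 / W) ≤ 1 := by linarith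
  have hJ9 : 2 / 9 ≤ Js := by
    have e1 := Jb_ge (1 - 1 / W)
    have e2 : 0 ≤ (4 / 5 + 6 / 5 * (1 - 1 / W)) * ((1 - 4 * (1 - 1 / W)) / 3 - (G + H)) :=
      mul_nonneg (by linarith) (by linarith)
    linarith
  have hT : 1 / 2 ≤ T := by rw [hR.eT]; linarith
  have hS : S ≤ 1 / 2 := by rw [hR.eS]; linarith
  have hXe : X = 1 - 2 * (1 - 1 / W) + G + H - P * A - Q * B := by
    rw [hR.eX]
    ring
  -- the reflected body
  have h' := frame_flipY h
  have hf' := Pool.Agent.Helper70.PHV.feat_flipY hf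
  have hR' := Pool.Agent.Helper70.PHV.red_flipY hR
  have n2 : Js < P * (1 - 2 * A) - Q * B ^ 2 := key (Pool.Agent.Helper70.PHV.cov_roof1 h hf hR)
  have n3 : Js < Q * (1 - 2 * B) - P * A ^ 2 := by
    apply key
    rw [add_comm G H]
    exact Cov_flipY (Pool.Agent.Helper70.PHV.cov_roof1 h' hf' hR')
  have n5 : Js < S - 2 * H - P * A ^ 2 := by
    apply key
    rw [add_comm G H]
    exact Cov_flipY (Pool.Agent.Helper70.PHV.cov_flat h' hf' hR')
  have hPA : 0 ≤ P * A ^ 2 := by positivity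
  have hQB : 0 ≤ Q * B ^ 2 := by positivity
  rcases le_total 0 A with hA | hA
  · rcases le_total 0 B with hB | hB
    · exact case1 hν hg hJs hTS hT hG hH hP hQ hA hB hX hXe kA kB ht
        (key (Pool.Agent.Helper95.PHV.cov_sep h hf hR hA hB)) n2 n3 n5
        (fun hc => key (Pool.Agent.Helper39.PHV.cov_pent1 h hf hR hc))
        (fun hc => key (Pool.Agent.Helper39.PHV.cov_pent2 h hf hR hc))
    · exact case2 hν1 hJ9 hTS hG hH hP hA kA
        (key (Pool.Agent.Helper95.PHV.cov_mix h hf hR hA hB htot)) (by linarith) n5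
  · have hB : 0 ≤ B := by
      by_contra hB
      push Not at hB
      have e1 : A * (T + P) ≤ 0 := mul_nonpos_of_nonpos_of_nonneg hA (by linarith)
      have e2 : B * (S + Q) < 0 := mul_neg_of_neg_of_pos hB (by linarith)
      linarith
    have n1 : Js < S * B - H * B := by
      apply key
      rw [add_comm G H]
      exact Cov_flipY (Pool.Agent.Helper95.PHV.cov_mix h' hf' hR' hB hA (by linarith))
    exact case3 hν1 hJ9 hS hH hQ hB kB n1 (by linarith)

/-- the frame with `b ≤ 1/4` -/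
theorem fin_core {K : Set (ℝ × ℝ)} {b c1 c2 r1 r2 l1 l2 : ℝ}
    (h : Frame K b c1 c2 r1 r2 l1 l2) (hb : b ≤ 1 / 4) :
    Cov K (6 / 5 * (volume K).toReal) := by
  obtain ⟨lam, rho, e1, f1, e2, f2, hf⟩ := exists_feat h
  have hR : Red b c1 c2 lam rho e1 f1 e2 f2 (1 + lam + rho) (1 - 2 * b) (2 * b)
      (gg c1 lam rho e1 f1) (gg c2 lam rho e2 f2) (pp (1 - 2 * b) c1) (pp (2 * b) c2)
      (xi (1 / 2 - b) c1 lam rho e1 f1) (xi b c2 lam rho e2 f2)
      (2 / (1 + lam + rho) - 1 + gg c1 lam rho e1 f1 + gg c2 lam rho e2 f2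
        - pp (1 - 2 * b) c1 * xi (1 / 2 - b) c1 lam rho e1 f1
        - pp (2 * b) c2 * xi b c2 lam rho e2 f2) :=
    ⟨rfl, rfl, rfl, rfl, rfl, rfl, rfl, rfl, rfl, rfl⟩
  generalize 1 + lam + rho = W at hR
  generalize 1 - 2 * b = T at hR
  generalize 2 * b = S at hR
  generalize gg c1 lam rho e1 f1 = G at hR
  generalize gg c2 lam rho e2 f2 = H at hR
  generalize pp T c1 = P at hR
  generalize pp S c2 = Q at hR
  generalize xi (1 / 2 - b) c1 lam rho e1 f1 = A at hR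
  generalize xi b c2 lam rho e2 f2 = B at hR
  generalize 2 / W - 1 + G + H - P * A - Q * B = X at hR
  rcases le_total 0 (A * (T + P) + B * (S + Q)) with hs | hs
  · exact fin_pos h hf hR hb hs
  · obtain ⟨hP, hQ, -, -, -, -, -, -, -, -, -, hT0, hS0, -, -⟩ :=
      Pool.Agent.Helper70.PHV.facts h hf hR
    apply Cov_flipX
    rw [← volume_flipX K]
    refine fin_pos (frame_flipX h) (Pool.Agent.Helper70.PHV.feat_flipX hf)
      (Pool.Agent.Helper70.PHV.red_flipX h hf hR) hb ?_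
    have e1 : -(P / T) * A * (T + T ^ 2 / P) = -(A * (T + P)) := by
      field_simp
      ring
    have e2 : -(Q / S) * B * (S + S ^ 2 / Q) = -(B * (S + Q)) := by
      field_simp
      ring
    rw [e1, e2]
    linarith

/-- A framed body lies in p-hexagons of area close to `6/5` times its own area. -/
theorem frame_final {K : Set (ℝ × ℝ)} {b c1 c2 r1 r2 l1 l2 : ℝ}
    (h : Frame K b c1 c2 r1 r2 l1 l2) : Cov K (6 / 5 * (volume K).toReal) := by
  rcases le_total b (1 / 4) with hb | hb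
  · exact fin_core h hb
  · apply Cov_flipY
    rw [← volume_flipY K]
    exact fin_core (frame_flipY h) (by linarith)

end Pool.Agent.Helper27.PHV
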