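import Pool.Agent.Helper27.PHV.Core

/-!
# MP_8bf717_co, upper bound `H ≤ 6/5`: the numbers
-/

set_option autoImplicit false

namespace Pool.Agent.Helper27.PHV

/-- the constraints of the core hold when no strategy works -/
theorem pc_of {ν T S G H P Q A B X Js : ℝ} (hν : 0 ≤ ν) (hg : G + H < (1 - 4 * ν) / 3)
    (hJs : Js = Jb ν + (4 / 5 + 6 / 5 * ν) * ((1 - 4 * ν) / 3 - (G + H)))
    (hTS : T + S = 1) (hT : 1 / 2 ≤ T) (hG : 0 ≤ G) (hH : 0 ≤ H) (hP : 0 < P) (hQ : 0 < Q)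
    (hA : 0 ≤ A) (hB : 0 ≤ B) (hX : 0 ≤ X) (hXe : X = 1 - 2 * ν + G + H - P * A - Q * B)
    (kA : P * (A - ν) ≤ G) (kB : Q * (B - ν) ≤ H)
    (n1 : Js < T * A + S * B - G * A - H * B) (n2 : Js < P * (1 - 2 * A) - Q * B ^ 2)
    (n3 : Js < Q * (1 - 2 * B) - P * A ^ 2) (n5 : Js < S - 2 * H - P * A ^ 2) :
    Pc ν A B P Q := by
  have hJb := Jb_ge ν
  have hδ : 0 < (1 - 4 * ν) / 3 - (G + H) := by linarith
  have hκ : 4 / 5 * ((1 - 4 * ν) / 3 - (G + H)) ≤ Js - Jb ν := by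
    have := mul_nonneg hν hδ.le
    rw [hJs]
    linarith
  have hJJ : Jb ν ≤ Js := by linarith
  have hPA : 0 ≤ P * A ^ 2 := by positivity
  have hQB : 0 ≤ Q * B ^ 2 := by positivity
  have hA1 : 2 * A ≤ 1 := by
    by_contra hc
    push Not at hc
    have := mul_nonneg hP.le (sub_nonneg.2 hc.le)
    linarith
  have hB1 : 2 * B ≤ 1 := by
    by_contra hc
    push Not at hc
    have := mul_nonneg hQ.le (sub_nonneg.2 hc.le)
    linarith
  refine ⟨hν, by linarith, hA, hA1, hB, hB1, hP.le, hQ.le, by linarith, by linarith, by linarith,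
    ?_, ?_, ?_, by linarith⟩
  · have m1 : P * max (A - ν) 0 ≤ G := by
      rcases le_total (A - ν) 0 with h | h
      · rw [max_eq_right h, mul_zero]; exact hG
      · rw [max_eq_left h]; exact kA
    have m2 : Q * max (B - ν) 0 ≤ H := by
      rcases le_total (B - ν) 0 with h | h
      · rw [max_eq_right h, mul_zero]; exact hH
      · rw [max_eq_left h]; exact kB
    linarith
  · intro hab
    have hT' : T = 1 - S := by linarith
    have hS : Jb ν + P * A ^ 2 + 2 * H ≤ S := by linarith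
    have e1 : (Jb ν + P * A ^ 2 + 2 * H) * (A - B) ≤ S * (A - B) :=
      mul_le_mul_of_nonneg_right hS (by linarith)
    have e2 : 0 ≤ H * (A - B) := mul_nonneg hH (by linarith)
    have e3 : ((1 - 4 * ν) / 3 - (G + H)) * A ≤ ((1 - 4 * ν) / 3 - (G + H)) * (1 / 2) :=
      mul_le_mul_of_nonneg_left (by linarith) hδ.le
    subst hT'
    linarith
  · intro hab
    have hT' : T = 1 - S := by linarith
    have e1 : S * (B - A) ≤ 1 / 2 * (B - A) :=
      mul_le_mul_of_nonneg_right (by linarith) (by linarith)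
    have e2 : 0 ≤ H * (B - A) := mul_nonneg hH (by linarith)
    have e3 : ((1 - 4 * ν) / 3 - (G + H)) * A ≤ ((1 - 4 * ν) / 3 - (G + H)) * (1 / 2) :=
      mul_le_mul_of_nonneg_left (by linarith) hδ.le
    subst hT'
    linarith

/-- case `A, B ≥ 0` -/
theorem case1 {ν T S G H P Q A B X Js : ℝ} (hν : 0 ≤ ν) (hg : G + H < (1 - 4 * ν) / 3)
    (hJs : Js = Jb ν + (4 / 5 + 6 / 5 * ν) * ((1 - 4 * ν) / 3 - (G + H)))
    (hTS : T + S = 1) (hT : 1 / 2 ≤ T) (hG : 0 ≤ G) (hH : 0 ≤ H) (hP : 0 < P) (hQ : 0 < Q)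
    (hA : 0 ≤ A) (hB : 0 ≤ B) (hX : 0 ≤ X) (hXe : X = 1 - 2 * ν + G + H - P * A - Q * B)
    (kA : P * (A - ν) ≤ G) (kB : Q * (B - ν) ≤ H) (ht : 0 ≤ T * (1 - A) - G)
    (n1 : Js < T * A + S * B - G * A - H * B) (n2 : Js < P * (1 - 2 * A) - Q * B ^ 2)
    (n3 : Js < Q * (1 - 2 * B) - P * A ^ 2) (n5 : Js < S - 2 * H - P * A ^ 2)
    (p1 : T * (T + P) ≤ P * (S + Q) → Js < -P * A ^ 2 - Q * B ^ 2 +
      ((1 - A) ^ 2 * (P * (S + Q) - T * (T + P)) + X ^ 2) / (1 + P + Q))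
    (p2 : P * (S + Q) ≤ T * (T + P) → Js < -P * A ^ 2 - Q * B ^ 2 +
      (T * (1 - A) - G) ^ 2 / (4 * (S + Q)) + X ^ 2 / (1 + P + Q)) : False := by
  have hpc := pc_of hν hg hJs hTS hT hG hH hP hQ hA hB hX hXe kA kB n1 n2 n3 n5
  have hJb := Jb_ge ν
  set δ : ℝ := (1 - 4 * ν) / 3 - (G + H) with hδd
  have hδ : 0 < δ := by rw [hδd]; linarith
  have hJJ : Jb ν ≤ Js := by
    rw [hJs]
    have : 0 ≤ (4 / 5 + 6 / 5 * ν) * δ := by positivity
    linarith
  have hPA : 0 ≤ P * A ^ 2 := by positivity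
  have hQB : 0 ≤ Q * B ^ 2 := by positivity
  have hE : 0 < 1 + P + Q := by linarith
  have hA1 := hpc.a1
  have hB1 := hpc.b1
  -- `X ≤ x0 - Y`
  have hX1 : X = (4 - 10 * ν) / 3 - (P * A + Q * B) - δ := by
    rw [hXe, hδd]; ring
  have hX2 : X ^ 2 ≤ ((4 - 10 * ν) / 3 - (P * A + Q * B)) ^ 2 := by
    apply pow_le_pow_left₀ hX
    linarith
  rcases le_total (T * (T + P)) (P * (S + Q)) with hc | hc
  · have h1 := p1 hc
    have h2 := core_alpha hpc
    have e1 : P * (S + Q) - T * (T + P) ≤ max (P * Q - 1 / 4) 0 := by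
      refine le_trans ?_ (le_max_left _ _)
      have hT' : S ≤ T := by linarith
      have f1 := mul_nonneg hP.le (sub_nonneg.2 hT')
      have f2 : 0 ≤ (T - 1 / 2) * (T + 1 / 2) := mul_nonneg (by linarith) (by linarith)
      linarith
    have e2 : (1 - A) ^ 2 * (P * (S + Q) - T * (T + P)) ≤ (1 - A) ^ 2 * max (P * Q - 1 / 4) 0 :=
      mul_le_mul_of_nonneg_left e1 (sq_nonneg _)
    have e3 : ((1 - A) ^ 2 * (P * (S + Q) - T * (T + P)) + X ^ 2) / (1 + P + Q) ≤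
        Jb ν + P * A ^ 2 + Q * B ^ 2 := by
      rw [div_le_iff₀ hE]
      linarith
    linarith
  · have h1 := p2 hc
    have h2 := core_beta hpc
    set q : ℝ := Jb ν + P * A ^ 2 with hq
    have hq0 : 2 / 9 ≤ q := by linarith
    have hqS : q + 2 * H ≤ S := by linarith
    have hqQ : q ≤ Q := by
      have : 0 ≤ Q * B := mul_nonneg hQ.le hB
      linarith
    set t : ℝ := max ((1 - A) * (1 - q) - (1 - 4 * ν) / 3) 0 with htd
    have ht0 : 0 ≤ t := le_max_right _ _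
    have ht1 : (1 - A) * (1 - q) - (1 - 4 * ν) / 3 ≤ t := le_max_left _ _
    -- `T (1 - A) - G ≤ t + δ`
    have ht2 : T * (1 - A) - G ≤ t + δ := by
      have hT' : T ≤ 1 - q - 2 * H := by linarith
      have e1 : T * (1 - A) ≤ (1 - q - 2 * H) * (1 - A) :=
        mul_le_mul_of_nonneg_right hT' (by linarith)
      have e2 : 0 ≤ H * (1 - 2 * A) := mul_nonneg hH (by linarith)
      rw [hδd]
      linarith
    have ht3 : (T * (1 - A) - G) ^ 2 ≤ (t + δ) ^ 2 := pow_le_pow_left₀ ht ht2 2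
    -- `2 t + δ ≤ 4 κ' (S + Q)`
    have hδ1 : δ ≤ (1 - 4 * ν) / 3 := by rw [hδd]; linarith
    have hν1 := hpc.n1
    have hq' : Jb ν ≤ q := by linarith
    have ht4 : 2 * t + δ ≤ 4 * (4 / 5 + 6 / 5 * ν) * (S + Q) := by
      have e1 : 4 * (4 / 5 + 6 / 5 * ν) * (2 * q) ≤ 4 * (4 / 5 + 6 / 5 * ν) * (S + Q) :=
        mul_le_mul_of_nonneg_left (by linarith) (by linarith)
      refine le_trans ?_ e1
      rcases le_total ((1 - A) * (1 - q) - (1 - 4 * ν) / 3) 0 with hm | hm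
      · rw [htd, max_eq_right hm]
        have := mul_nonneg hν (by linarith : 0 ≤ q)
        linarith
      · rw [htd, max_eq_left hm]
        have hq1 : q ≤ 1 / 2 := hpc.F6
        have e2 : (1 - A) * (1 - q) ≤ 1 - q := by
          have := mul_nonneg hA (by linarith : 0 ≤ 1 - q)
          linarith
        have e3 : 0 ≤ (8 * (4 / 5 + 6 / 5 * ν) + 2) * Jb ν + (1 - 4 * ν) / 3 - 2 := by
          unfold Jb
          have f1 := mul_nonneg hν (sq_nonneg (ν - 3 / 20))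
          have f2 := sq_nonneg (ν - 3 / 20)
          linarith
        have e4 : (8 * (4 / 5 + 6 / 5 * ν) + 2) * Jb ν ≤ (8 * (4 / 5 + 6 / 5 * ν) + 2) * q :=
          mul_le_mul_of_nonneg_left hq' (by linarith)
        linarith
    have hSQ : 0 < S + Q := by linarith
    have hqQ0 : 0 < q + Q := by linarith
    have e5 : (T * (1 - A) - G) ^ 2 / (4 * (S + Q)) ≤
        t ^ 2 / (4 * (q + Q)) + (4 / 5 + 6 / 5 * ν) * δ := by
      have f1 : (T * (1 - A) - G) ^ 2 / (4 * (S + Q)) ≤ (t + δ) ^ 2 / (4 * (S + Q)) :=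
        div_le_div_of_nonneg_right ht3 (by linarith)
      have f2 : t ^ 2 / (4 * (S + Q)) ≤ t ^ 2 / (4 * (q + Q)) :=
        div_le_div_of_nonneg_left (sq_nonneg _) (by linarith) (by linarith)
      have f3 : (t + δ) ^ 2 / (4 * (S + Q)) = t ^ 2 / (4 * (S + Q)) +
          δ * (2 * t + δ) / (4 * (S + Q)) := by ring
      have f4 : δ * (2 * t + δ) / (4 * (S + Q)) ≤ (4 / 5 + 6 / 5 * ν) * δ := by
        rw [div_le_iff₀ (by linarith)]
        have := mul_le_mul_of_nonneg_left ht4 hδ.le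
        linarith
      linarith
    have e6 : X ^ 2 / (1 + P + Q) ≤
        ((4 - 10 * ν) / 3 - (P * A + Q * B)) ^ 2 / (1 + P + Q) :=
      div_le_div_of_nonneg_right hX2 hE.le
    rw [hJs] at h1
    linarith

/-- case `A ≥ 0 ≥ B` -/
theorem case2 {ν T S G H P A Js : ℝ} (hν1 : 4 * ν ≤ 1) (hJ : 2 / 9 ≤ Js)
    (hTS : T + S = 1) (hG : 0 ≤ G) (hH : 0 ≤ H) (hP : 0 < P)
    (hA : 0 ≤ A) (kA : P * (A - ν) ≤ G)
    (n1 : Js < T * A - G * A) (n2 : Js < P * (1 - 2 * A))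
    (n5 : Js < S - 2 * H - P * A ^ 2) : False := by
  have hA1 : 2 * A < 1 := by
    by_contra hc
    push Not at hc
    have := mul_nonneg hP.le (sub_nonneg.2 hc)
    linarith
  have hPA : 0 ≤ P * A ^ 2 := by positivity
  have hT' : T = 1 - S := by linarith
  subst hT'
  have e1 : (1 - S - G) * A ≤ (1 - Js - P * A ^ 2 - G) * A :=
    mul_le_mul_of_nonneg_right (by linarith) hA
  rcases le_total A ν with h | h
  · have e2 : 0 ≤ (P * A ^ 2 + G) * A := by positivity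
    have e3 : Js * (1 + A) < A := by linarith
    have e4 : 2 / 9 * (1 + A) ≤ Js * (1 + A) := mul_le_mul_of_nonneg_right hJ (by linarith)
    linarith
  · -- `A ≥ ν`
    have e2 : P * (A - ν) * A ≤ G * A := mul_le_mul_of_nonneg_right kA hA
    have e3 : Js < (1 - Js - P * (A ^ 2 + A - ν)) * A := by linarith
    have hm : 0 ≤ A ^ 2 + A - ν := by
      have := sq_nonneg A
      linarith
    have e4 : Js * (A ^ 2 + A - ν) * A ≤ P * (1 - 2 * A) * ((A ^ 2 + A - ν) * A) := by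
      rw [mul_assoc]
      exact mul_le_mul_of_nonneg_right n2.le (mul_nonneg hm hA)
    have e5 : Js * (1 - 2 * A) < ((1 - Js - P * (A ^ 2 + A - ν)) * A) * (1 - 2 * A) :=
      mul_lt_mul_of_pos_right e3 (by linarith)
    have e6 : 0 < A * (1 - 2 * A) - Js * (1 - A - A ^ 2 + A ^ 3 - A * ν) := by linarith
    have e9 : 0 ≤ A * (1 / 4 - ν) := mul_nonneg hA (by linarith)
    have e7 : 0 < 1 - A - A ^ 2 + A ^ 3 - A * ν := by
      have f1 : 0 ≤ A * (1 - 2 * A) := mul_nonneg hA (by linarith)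
      have f2 : 0 ≤ A ^ 3 := by positivity
      linarith
    have e8 : 2 / 9 * (1 - A - A ^ 2 + A ^ 3 - A * ν) ≤ Js * (1 - A - A ^ 2 + A ^ 3 - A * ν) :=
      mul_le_mul_of_nonneg_right hJ e7.le
    have e10 : 0 ≤ A * (A - 1 / 3) ^ 2 := mul_nonneg hA (sq_nonneg _)
    have e11 := sq_nonneg (A - 338 / 1000)
    linarith

/-- case `B ≥ 0 ≥ A` -/
theorem case3 {ν S H Q B Js : ℝ} (hν1 : 4 * ν ≤ 1) (hJ : 2 / 9 ≤ Js) (hS : S ≤ 1 / 2)
    (hH : 0 ≤ H) (hQ : 0 < Q) (hB : 0 ≤ B) (kB : Q * (B - ν) ≤ H)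
    (n1 : Js < S * B - H * B) (n3 : Js < Q * (1 - 2 * B)) : False := by
  have hB1 : 2 * B < 1 := by
    by_contra hc
    push Not at hc
    have := mul_nonneg hQ.le (sub_nonneg.2 hc)
    linarith
  have e1 : (S - H) * B ≤ (1 / 2 - H) * B := mul_le_mul_of_nonneg_right (by linarith) hB
  rcases le_total B ν with h | h
  · have e2 : 0 ≤ H * B := mul_nonneg hH hB
    linarith
  · have e2 : Q * (B - ν) * B ≤ H * B := mul_le_mul_of_nonneg_right kB hB
    have e3 : Js < (1 / 2 - Q * (B - ν)) * B := by linarith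
    have e4 : Js * ((B - ν) * B) ≤ Q * (1 - 2 * B) * ((B - ν) * B) :=
      mul_le_mul_of_nonneg_right n3.le (mul_nonneg (by linarith) hB)
    have e5 : Js * (1 - 2 * B) < ((1 / 2 - Q * (B - ν)) * B) * (1 - 2 * B) :=
      mul_lt_mul_of_pos_right e3 (by linarith)
    have e6 : 0 < B * (1 - 2 * B) / 2 - Js * (B * (B - ν) + (1 - 2 * B)) := by linarith
    have e7 : 0 < B * (B - ν) + (1 - 2 * B) := by
      have : 0 ≤ B * (B - ν) := mul_nonneg hB (by linarith)
      linarith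
    have e8 : 2 / 9 * (B * (B - ν) + (1 - 2 * B)) ≤ Js * (B * (B - ν) + (1 - 2 * B)) :=
      mul_le_mul_of_nonneg_right hJ e7.le
    have e9 : 0 ≤ B * (1 / 4 - ν) := mul_nonneg hB (by linarith)
    have e10 := sq_nonneg (B - 9 / 22)
    linarith

end Pool.Agent.Helper27.PHV
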