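import Mathlib.Tactic
import Mathlib.Data.Real.Basic
import Pool.Agent.Helper27.PHV.Chk

/-!
# MP_8bf717_co, upper bound `H ≤ 6/5`: soundness of the checker
-/

set_option autoImplicit false

namespace Pool.Agent.Helper27.PHV

/-- `3 N² J` -/
def J3 (N n : ℝ) : ℝ := N * N + 12 * n * n - 4 * n * N

/-- the constraints, scaled by `N` -/
structure Pt (N n a b P Q : ℝ) : Prop where
  n0 : 0 ≤ n
  n1 : 4 * n ≤ N
  a0 : 0 ≤ a
  a1 : 2 * a ≤ N
  b0 : 0 ≤ b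
  b1 : 2 * b ≤ N
  P0 : 0 ≤ P
  Q0 : 0 ≤ Q
  F1 : J3 N n * a + 3 * (Q * b) * a * b ≤ 3 * N * (P * a) * (N - 2 * a)
  F2 : J3 N n * b + 3 * (P * a) * a * b ≤ 3 * N * (Q * b) * (N - 2 * b)
  F3 : 3 * (P * a + Q * b) + 10 * n ≤ 4 * N
  F4 : 3 * (P * max (a - n) 0 + Q * max (b - n) 0) ≤ N - 4 * n
  F5a : b ≤ a → J3 N n * N + (J3 N n + 3 * (P * a) * a) * (a - b) ≤ (2 * N + 4 * n) * a * N
  F5b : a ≤ b → 2 * J3 N n + 2 * ((N - 4 * n) * a) ≤ 3 * N * (a + b)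
  F6 : 2 * (J3 N n + 3 * (P * a) * a) ≤ 3 * (N * N)

/-- the two goals, scaled -/
def Goal (mode : Bool) (N n a b P Q : ℝ) : Prop :=
  if mode then
    3 * max ((N - a) * (3 * (N * N) - (J3 N n + 3 * (P * a) * a)) - (N - 4 * n) * (N * N)) 0 ^ 2
        / (J3 N n + 3 * (P * a) * a + 3 * (N * N) * Q)
      + 4 * (N * N) * (4 * N - 10 * n - 3 * (P * a + Q * b)) ^ 2 / (1 + P + Q) ≤
      12 * (N * N) * (J3 N n + 3 * (P * a * a + Q * b * b))
  else
    9 * (N - a) ^ 2 * max (4 * (P * Q) - 1) 0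
      + 4 * (4 * N - 10 * n - 3 * (P * a + Q * b)) ^ 2 ≤
      12 * (1 + P + Q) * (J3 N n + 3 * (P * a * a + Q * b * b))

theorem tsub_ge (x y : ℕ) : (x : ℝ) - y ≤ ((x - y : ℕ) : ℝ) := by
  rcases le_total y x with h | h
  · rw [Nat.cast_sub h]
  · rw [Nat.sub_eq_zero_of_le h]
    have : (x : ℝ) ≤ y := by exact_mod_cast h
    push_cast
    linarith

theorem tsub_max (x y : ℕ) : ((x - y : ℕ) : ℝ) = max ((x : ℝ) - y) 0 := by
  rcases le_total y x with h | h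
  · have : (y : ℝ) ≤ x := by exact_mod_cast h
    rw [Nat.cast_sub h, max_eq_left (by linarith)]
  · have : (x : ℝ) ≤ y := by exact_mod_cast h
    rw [Nat.sub_eq_zero_of_le h, max_eq_right (by linarith)]
    simp

theorem J3f_cast (n : ℕ) : ((J3f n : ℕ) : ℝ) = J3 (NN : ℝ) n := by
  unfold J3f J3
  have h : 4 * n * NN ≤ NN * NN + 12 * n * n := by
    have h1 : (4 * (n : ℤ) * NN) ≤ NN * NN + 12 * n * n := by
      nlinarith [sq_nonneg ((NN : ℤ) - 2 * n), sq_nonneg (n : ℤ)]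
    exact_mod_cast h1
  rw [Nat.cast_sub h]
  push_cast
  ring

theorem NN_val : ((NN : ℕ) : ℝ) = 12288 := by
  unfold NN
  norm_num

theorem J3_pos {N n : ℝ} (hN : 0 < N) : 0 < J3 N n := by
  unfold J3
  nlinarith [sq_nonneg (N - 2 * n), sq_nonneg n, sq_nonneg (N - 6 * n)]

theorem Jlo_le {n : ℝ} {n0 n1 : ℕ} (h0 : (n0 : ℝ) ≤ n) (h1 : n ≤ n1) :
    ((Jlo n0 n1 : ℕ) : ℝ) ≤ J3 (NN : ℝ) n := by
  unfold Jlo
  split_ifs with hc
  · rw [NN_val]
    unfold J3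
    push_cast
    nlinarith [sq_nonneg (n - 2048)]
  · have hc' : 2048 < n0 ∨ n1 < 2048 := by
      by_contra hcc
      push Not at hcc
      apply hc
      simp only [Nat.ble_eq, Bool.and_eq_true]
      exact ⟨by omega, by omega⟩
    rcases hc' with hc' | hc'
    · have h2 : ((min (J3f n0) (J3f n1) : ℕ) : ℝ) ≤ J3 (NN : ℝ) n0 := by
        rw [← J3f_cast]
        exact_mod_cast min_le_left _ _
      refine h2.trans ?_
      have h3 : (2048 : ℝ) ≤ n0 := by exact_mod_cast hc'.le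
      rw [NN_val]
      unfold J3
      nlinarith [mul_nonneg (sub_nonneg.2 h0) (by linarith : (0 : ℝ) ≤ 12 * (n + n0) - 49152)]
    · have h2 : ((min (J3f n0) (J3f n1) : ℕ) : ℝ) ≤ J3 (NN : ℝ) n1 := by
        rw [← J3f_cast]
        exact_mod_cast min_le_right _ _
      refine h2.trans ?_
      have h3 : (n1 : ℝ) ≤ 2048 := by exact_mod_cast hc'.le
      rw [NN_val]
      unfold J3
      nlinarith [mul_nonneg (sub_nonneg.2 h1) (by linarith : (0 : ℝ) ≤ 49152 - 12 * (n + n1))]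

theorem Jlo_pos (n0 n1 : ℕ) : 0 < Jlo n0 n1 := by
  have key : ∀ m, 0 < J3f m := by
    intro m
    have h : (0 : ℝ) < ((J3f m : ℕ) : ℝ) := by
      rw [J3f_cast]
      exact J3_pos (by rw [NN_val]; norm_num)
    exact_mod_cast h
  unfold Jlo
  split_ifs
  · norm_num
  · exact lt_min (key _) (key _)

/-! ### the single tests, over the reals -/

theorem t1 {N n a b u v J A0 B0 U1 V0 c : ℝ} (hN : 0 < N) (hA0 : 0 ≤ A0) (hB0 : 0 ≤ B0)
    (hV0 : 0 ≤ V0) (hu0 : 0 ≤ u) (hJ : 0 ≤ J) (hJ' : J ≤ J3 N n)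
    (ha : A0 ≤ a) (hb : B0 ≤ b) (hu : u ≤ U1) (hv : V0 ≤ v) (ha1 : 2 * a ≤ N)
    (hc : N - 2 * A0 ≤ c)
    (F : J3 N n * a + 3 * v * a * b ≤ 3 * N * u * (N - 2 * a))
    (hk : 3 * N * U1 * c < J * A0 + 3 * (V0 * A0 * B0)) : False := by
  have e1 : J * A0 ≤ J3 N n * a := mul_le_mul hJ' ha hA0 (hJ.trans hJ')
  have e2 : V0 * A0 * B0 ≤ v * a * b := by
    have := hV0.trans hv
    have := hA0.trans ha
    gcongr
  have e3 : u * (N - 2 * a) ≤ U1 * c := mul_le_mul hu (by linarith) (by linarith) (by linarith)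
  have e4 : 3 * N * (u * (N - 2 * a)) ≤ 3 * N * (U1 * c) :=
    mul_le_mul_of_nonneg_left e3 (by linarith)
  linarith

theorem t4 {N n a b P Q A0 B0 U0 V0 n0 n1 c d g : ℝ} (hA0 : 0 ≤ A0) (hB0 : 0 ≤ B0)
    (hn0 : n0 ≤ n) (hn1 : n ≤ n1) (hn : 0 ≤ n)
    (ha : A0 ≤ a) (hb : B0 ≤ b) (hu : U0 ≤ P * a) (hv : V0 ≤ Q * b) (hP : 0 ≤ P) (hQ : 0 ≤ Q)
    (hc : c = max (A0 - n1) 0) (hd : d = max (B0 - n1) 0) (hg : N - 4 * n0 ≤ g)
    (F : 3 * (P * max (a - n) 0 + Q * max (b - n) 0) ≤ N - 4 * n)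
    (hk : g * (A0 * B0) < 3 * (U0 * c * B0 + V0 * d * A0)) : False := by
  have key : ∀ {X x R W : ℝ}, 0 ≤ X → X ≤ x → W ≤ R * x → 0 ≤ R →
      W * max (X - n1) 0 ≤ X * (R * max (x - n) 0) := by
    intro X x R W hX hx hW hR
    rcases le_total X n1 with h1 | h1
    · rw [max_eq_right (by linarith : X - n1 ≤ 0), mul_zero]
      exact mul_nonneg hX (mul_nonneg hR (le_max_right _ _))
    · rw [max_eq_left (by linarith : 0 ≤ X - n1), max_eq_left (by linarith : 0 ≤ x - n)]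
      calc W * (X - n1) ≤ (R * x) * (X - n1) := mul_le_mul_of_nonneg_right hW (by linarith)
        _ = R * (x * (X - n1)) := by ring
        _ ≤ R * (X * (x - n)) := by
            apply mul_le_mul_of_nonneg_left _ hR
            nlinarith [mul_nonneg hX (sub_nonneg.2 hn1), mul_nonneg (hn.trans hn1) (sub_nonneg.2 hx)]
        _ = X * (R * (x - n)) := by ring
  have k1 := key hA0 ha hu hP
  have k2 := key hB0 hb hv hQ
  rw [← hc] at k1
  rw [← hd] at k2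
  have m1 := mul_le_mul_of_nonneg_right k1 hB0
  have m2 := mul_le_mul_of_nonneg_right k2 hA0
  have m3 : 3 * (P * max (a - n) 0 + Q * max (b - n) 0) ≤ g := by linarith
  have m4 := mul_le_mul_of_nonneg_right m3 (mul_nonneg hA0 hB0)
  nlinarith

theorem t5a {N n a b q J q0 A1 n1 mn : ℝ} (hN : 0 < N) (hn : n ≤ n1) (hn0 : 0 ≤ n)
    (hn4 : 4 * n ≤ N)
    (hab : b ≤ a) (ha0 : 0 ≤ a) (ha : a ≤ A1) (hbm : b ≤ mn) (hmn : mn ≤ A1)
    (hJ' : J ≤ J3 N n) (hq : q0 ≤ q) (hq0 : 0 ≤ q0)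
    (F : J3 N n * N + q * (a - b) ≤ (2 * N + 4 * n) * a * N)
    (F6 : 2 * q ≤ 3 * (N * N))
    (hk : (2 * N + 4 * n1) * A1 * N < J * N + q0 * (A1 - mn)) : False := by
  have h1 : 0 ≤ (2 * N + 4 * n) * N - q := by nlinarith
  have h2 : ((2 * N + 4 * n) * N - q) * a ≤ ((2 * N + 4 * n) * N - q) * A1 :=
    mul_le_mul_of_nonneg_left ha h1
  have h3 : q0 * (A1 - mn) ≤ q * (A1 - b) := mul_le_mul hq (by linarith) (by linarith) (by linarith)
  have h4 : J * N ≤ J3 N n * N := mul_le_mul_of_nonneg_right hJ' hN.le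
  have h5 : (2 * N + 4 * n) * A1 * N ≤ (2 * N + 4 * n1) * A1 * N := by
    have : 0 ≤ A1 * N := mul_nonneg (ha0.trans ha) hN.le
    nlinarith
  nlinarith

theorem t5b {N n a b J B1 n1 mn g : ℝ} (hN : 0 < N) (hn : n ≤ n1) (hn0 : 0 ≤ n)
    (hn4 : 4 * n ≤ N)
    (ha0 : 0 ≤ a) (ham : a ≤ mn) (hb : b ≤ B1)
    (hJ' : J ≤ J3 N n) (hg : g = max (N - 4 * n1) 0)
    (F : 2 * J3 N n + 2 * ((N - 4 * n) * a) ≤ 3 * N * (a + b))
    (hk : 3 * N * (mn + B1) < 2 * J + 2 * (g * mn)) : False := by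
  have hg1 : g ≤ N - 4 * n := by
    rw [hg]
    exact max_le (by linarith) (by linarith)
  have hg0 : 0 ≤ g := by rw [hg]; exact le_max_right _ _
  have h1 : g * a ≤ (N - 4 * n) * a := mul_le_mul_of_nonneg_right hg1 ha0
  have hgN : g ≤ N := by linarith
  have h2 : (3 * N - 2 * g) * a ≤ (3 * N - 2 * g) * mn :=
    mul_le_mul_of_nonneg_left ham (by linarith)
  have h3 : N * b ≤ N * B1 := mul_le_mul_of_nonneg_left hb hN.le
  nlinarith

theorem beta_core {N t X W D E tb Xb Wb B A M R : ℝ} (ht : 0 ≤ t) (ht' : t ≤ tb)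
    (hX : 0 ≤ X) (hX' : X ≤ Xb) (hW : Wb ≤ W) (hD : M ≤ D * B) (hE : R ≤ E * (A * B))
    (hM : 0 < M) (hR : 0 < R) (hD0 : 0 < D) (hE0 : 0 < E) (hB : 0 ≤ B) (hAB : 0 ≤ A * B)
    (hchk : 3 * (tb * tb) * (B * R) + 4 * (N * N) * (Xb * Xb) * (A * B) * M ≤
      12 * (N * N) * Wb * (M * R)) :
    3 * t ^ 2 / D + 4 * (N * N) * X ^ 2 / E ≤ 12 * (N * N) * W := by
  have h1 : 3 * t ^ 2 / D ≤ 3 * (tb * tb) * B / M := by
    rw [div_le_div_iff₀ hD0 hM]
    have e1 : t ^ 2 ≤ tb * tb := by nlinarith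
    calc 3 * t ^ 2 * M ≤ 3 * (tb * tb) * (D * B) :=
          mul_le_mul (by linarith) hD hM.le (by nlinarith [mul_self_nonneg tb])
      _ = 3 * (tb * tb) * B * D := by ring
  have h2 : 4 * (N * N) * X ^ 2 / E ≤ 4 * (N * N) * (Xb * Xb) * (A * B) / R := by
    rw [div_le_div_iff₀ hE0 hR]
    have e1 : X ^ 2 ≤ Xb * Xb := by nlinarith
    have hNN : 0 ≤ N * N := mul_self_nonneg N
    calc 4 * (N * N) * X ^ 2 * R ≤ 4 * (N * N) * (Xb * Xb) * (E * (A * B)) := by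
          apply mul_le_mul _ hE hR.le (mul_nonneg (by linarith) (mul_self_nonneg Xb))
          exact mul_le_mul_of_nonneg_left e1 (by linarith)
      _ = 4 * (N * N) * (Xb * Xb) * (A * B) * E := by ring
  have h3 : 3 * (tb * tb) * B / M + 4 * (N * N) * (Xb * Xb) * (A * B) / R ≤
      12 * (N * N) * Wb := by
    rw [div_add_div _ _ hM.ne' hR.ne', div_le_iff₀ (mul_pos hM hR)]
    linarith
  have hNN : 0 ≤ N * N := mul_self_nonneg N
  have h4 : 12 * (N * N) * Wb ≤ 12 * (N * N) * W := mul_le_mul_of_nonneg_left hW (by linarith)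
  linarith

theorem alpha_core {N a P Q X W A0 B0 A1 B1 U1 V1 c f Xb Wb R E : ℝ}
    (hA0 : 0 < A0) (hB0 : 0 < B0) (hA1 : 0 < A1) (hB1 : 0 < B1)
    (hP : 0 ≤ P) (hQ : 0 ≤ Q)
    (haN : 0 ≤ N - a) (hc : N - a ≤ c)
    (hu : P * A0 ≤ U1) (hv : Q * B0 ≤ V1) (hf : f = max (4 * (U1 * V1) - A0 * B0) 0)
    (hX : 0 ≤ X) (hX' : X ≤ Xb) (hW : Wb ≤ W) (hWb : 0 ≤ Wb)
    (hE : R ≤ E * (A1 * B1)) (hE0 : 0 < E)
    (hchk : 9 * (c * c) * f * (A1 * B1) + 4 * (Xb * Xb) * (A0 * B0) * (A1 * B1) ≤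
      12 * R * Wb * (A0 * B0)) :
    9 * (N - a) ^ 2 * max (4 * (P * Q) - 1) 0 + 4 * X ^ 2 ≤ 12 * E * W := by
  have hAB0 : 0 < A0 * B0 := mul_pos hA0 hB0
  have hAB1 : 0 < A1 * B1 := mul_pos hA1 hB1
  have hf0 : 0 ≤ f := by rw [hf]; exact le_max_right _ _
  have h1 : max (4 * (P * Q) - 1) 0 * (A0 * B0) ≤ f := by
    rcases le_total (4 * (P * Q) - 1) 0 with h | h
    · rw [max_eq_right h, zero_mul]; exact hf0
    · rw [max_eq_left h, hf]
      refine le_trans ?_ (le_max_left _ _)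
      have : (P * A0) * (Q * B0) ≤ U1 * V1 :=
        mul_le_mul hu hv (by positivity) ((by positivity : 0 ≤ P * A0).trans hu)
      nlinarith
  have h2 : (N - a) ^ 2 ≤ c * c := by nlinarith
  have h3 : X ^ 2 ≤ Xb * Xb := by nlinarith
  have hm : 0 ≤ max (4 * (P * Q) - 1) 0 := le_max_right _ _
  have h4 : (N - a) ^ 2 * (max (4 * (P * Q) - 1) 0 * (A0 * B0)) ≤ c * c * f :=
    mul_le_mul h2 h1 (by positivity) (mul_self_nonneg c)
  have h5 : X ^ 2 * (A0 * B0) ≤ Xb * Xb * (A0 * B0) := mul_le_mul_of_nonneg_right h3 hAB0.le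
  have h6 : R * Wb ≤ E * (A1 * B1) * W :=
    (mul_le_mul_of_nonneg_right hE hWb).trans
      (mul_le_mul_of_nonneg_left hW (by positivity))
  have h7 : (9 * (N - a) ^ 2 * max (4 * (P * Q) - 1) 0 + 4 * X ^ 2) * ((A0 * B0) * (A1 * B1)) ≤
      12 * E * W * ((A0 * B0) * (A1 * B1)) := by
    have e4 := mul_le_mul_of_nonneg_right h4 hAB1.le
    have e5 := mul_le_mul_of_nonneg_right h5 hAB1.le
    have e6 := mul_le_mul_of_nonneg_right h6 hAB0.le
    nlinarith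
  exact le_of_mul_le_mul_right h7 (by positivity)

/-- soundness of one test -/
theorem chk_sound {mode : Bool} {n0 n1 A0 A1 B0 B1 U0 U1 V0 V1 : ℕ} {n a b P Q : ℝ}
    (h : Pt (NN : ℝ) n a b P Q)
    (hn0 : (n0 : ℝ) ≤ n) (hn1 : n ≤ n1) (hA0 : (A0 : ℝ) ≤ a) (hA1 : a ≤ A1)
    (hB0 : (B0 : ℝ) ≤ b) (hB1 : b ≤ B1) (hU0 : (U0 : ℝ) ≤ P * a) (hU1 : P * a ≤ U1)
    (hV0 : (V0 : ℝ) ≤ Q * b) (hV1 : Q * b ≤ V1)
    (hc : chk mode n0 n1 A0 A1 B0 B1 U0 U1 V0 V1 = true) : Goal mode (NN : ℝ) n a b P Q := by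
  have hN : (0 : ℝ) < (NN : ℝ) := by rw [NN_val]; norm_num
  have hJ := Jlo_le hn0 hn1
  have hJp : (0 : ℝ) < (Jlo n0 n1 : ℕ) := by exact_mod_cast Jlo_pos n0 n1
  have pn := h.n0
  have pn1 := h.n1
  have pa := h.a0
  have pa1 := h.a1
  have pb := h.b0
  have pb1 := h.b1
  have pP := h.P0
  have pQ := h.Q0
  have pu : 0 ≤ P * a := mul_nonneg pP pa
  have pv : 0 ≤ Q * b := mul_nonneg pQ pb
  have cA0 : (0 : ℝ) ≤ A0 := Nat.cast_nonneg _
  have cB0 : (0 : ℝ) ≤ B0 := Nat.cast_nonneg _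
  have cU0 : (0 : ℝ) ≤ U0 := Nat.cast_nonneg _
  have cV0 : (0 : ℝ) ≤ V0 := Nat.cast_nonneg _
  have cA1 : (0 : ℝ) ≤ A1 := Nat.cast_nonneg _
  have cB1 : (0 : ℝ) ≤ B1 := Nat.cast_nonneg _
  have hUA : (U0 : ℝ) * A0 ≤ P * a * a := mul_le_mul hU0 hA0 cA0 pu
  have hVB : (V0 : ℝ) * B0 ≤ Q * b * b := mul_le_mul hV0 hB0 cB0 pv
  set J := Jlo n0 n1 with hJdef
  have hq : (J : ℝ) + 3 * (U0 * A0) ≤ J3 (NN : ℝ) n + 3 * (P * a) * a := by linarith
  have F6 := h.F6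
  simp only [chk, Bool.or_eq_true, Bool.and_eq_true, Nat.blt_eq, Nat.ble_eq, ← hJdef] at hc
  rcases hc with (((((k | k) | k) | k) | k) | k) | k
  · exfalso
    have k' : 3 * (NN : ℝ) * U1 * ((NN - 2 * A0 : ℕ) : ℝ) < J * A0 + 3 * (V0 * A0 * B0) := by
      exact_mod_cast k
    have hcc : (NN : ℝ) - 2 * A0 ≤ ((NN - 2 * A0 : ℕ) : ℝ) := by
      have := tsub_ge NN (2 * A0)
      push_cast at this
      exact this
    exact t1 hN cA0 cB0 cV0 pu hJp.le hJ hA0 hB0 hU1 hV0 pa1 hcc h.F1 k'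
  · exfalso
    have k' : 3 * (NN : ℝ) * V1 * ((NN - 2 * B0 : ℕ) : ℝ) < J * B0 + 3 * (U0 * B0 * A0) := by
      have : 3 * (NN : ℝ) * V1 * ((NN - 2 * B0 : ℕ) : ℝ) < J * B0 + 3 * (U0 * A0 * B0) := by
        exact_mod_cast k
      linarith
    have hcc : (NN : ℝ) - 2 * B0 ≤ ((NN - 2 * B0 : ℕ) : ℝ) := by
      have := tsub_ge NN (2 * B0)
      push_cast at this
      exact this
    refine t1 hN cB0 cA0 cU0 pv hJp.le hJ hB0 hA0 hV1 hU0 pb1 hcc ?_ k'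
    have := h.F2
    linarith
  · exfalso
    have k' : 4 * (NN : ℝ) < 3 * (U0 + V0) + 10 * n0 := by exact_mod_cast k
    have := h.F3
    linarith
  · exfalso
    have k' : 3 * ((NN : ℝ) * NN) < 2 * (J + 3 * (U0 * A0)) := by exact_mod_cast k
    linarith
  · exfalso
    have k' : ((NN - 4 * n0 : ℕ) : ℝ) * (A0 * B0) <
        3 * (U0 * ((A0 - n1 : ℕ) : ℝ) * B0 + V0 * ((B0 - n1 : ℕ) : ℝ) * A0) := by
      exact_mod_cast k
    have hcc : (NN : ℝ) - 4 * n0 ≤ ((NN - 4 * n0 : ℕ) : ℝ) := by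
      have := tsub_ge NN (4 * n0)
      push_cast at this
      exact this
    exact t4 cA0 cB0 hn0 hn1 pn hA0 hB0 hU0 hV0 pP pQ (tsub_max A0 n1) (tsub_max B0 n1) hcc
      h.F4 k'
  · exfalso
    obtain ⟨ka, kb⟩ := k
    rcases le_or_gt b a with hab | hab
    · rcases ka with ka | ka
      · have : (A1 : ℝ) < B0 := by exact_mod_cast ka
        linarith
      · have e1 : ((A1 - min B1 A1 : ℕ) : ℝ) = (A1 : ℝ) - min (B1 : ℝ) A1 := by
          rw [Nat.cast_sub (min_le_right _ _), Nat.cast_min]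
        have k' : (2 * (NN : ℝ) + 4 * n1) * A1 * NN <
            J * NN + (J + 3 * (U0 * A0)) * ((A1 - min B1 A1 : ℕ) : ℝ) := by exact_mod_cast ka
        rw [e1] at k'
        exact t5a hN hn1 pn pn1 hab pa hA1 (le_min hB1 (hab.trans hA1)) (min_le_right _ _) hJ hq
          (by positivity) (h.F5a hab) F6 k'
    · rcases kb with kb | kb
      · have : (B1 : ℝ) ≤ A0 := by exact_mod_cast kb
        linarith
      · have k' : 3 * (NN : ℝ) * (min (A1 : ℝ) B1 + B1) <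
            2 * J + 2 * (((NN - 4 * n1 : ℕ) : ℝ) * min (A1 : ℝ) B1) := by
          exact_mod_cast kb
        have hcc : ((NN - 4 * n1 : ℕ) : ℝ) = max ((NN : ℝ) - 4 * n1) 0 := by
          have := tsub_max NN (4 * n1)
          push_cast at this
          exact this
        exact t5b hN hn1 pn pn1 pa (le_min hA1 (hab.le.trans hB1)) hB1 hJ hcc (h.F5b hab.le) k'
  · have hR : (A1 : ℝ) * B1 + U0 * B1 + V0 * A1 ≤ (1 + P + Q) * (A1 * B1) := by
      have e1 : (U0 : ℝ) ≤ P * A1 := hU0.trans (mul_le_mul_of_nonneg_left hA1 pP)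
      have e2 : (V0 : ℝ) ≤ Q * B1 := hV0.trans (mul_le_mul_of_nonneg_left hB1 pQ)
      have e3 := mul_le_mul_of_nonneg_right e1 cB1
      have e4 := mul_le_mul_of_nonneg_right e2 cA1
      nlinarith
    have hX0 : 0 ≤ 4 * (NN : ℝ) - 10 * n - 3 * (P * a + Q * b) := by
      have := h.F3
      linarith
    have hXb : 4 * (NN : ℝ) - 10 * n - 3 * (P * a + Q * b) ≤
        ((4 * NN - 10 * n0 - 3 * (U0 + V0) : ℕ) : ℝ) := by
      have e1 := tsub_ge (4 * NN - 10 * n0) (3 * (U0 + V0))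
      have e2 := tsub_ge (4 * NN) (10 * n0)
      push_cast at e1 e2
      linarith
    have hWb : (J : ℝ) + 3 * (U0 * A0 + V0 * B0) ≤
        J3 (NN : ℝ) n + 3 * (P * a * a + Q * b * b) := by linarith
    have hE0 : 0 < 1 + P + Q := by linarith
    cases mode
    · -- alpha
      simp only [Bool.false_eq_true, if_false, Bool.and_eq_true, Nat.blt_eq, Nat.ble_eq] at k
      obtain ⟨⟨k1, k2⟩, k3⟩ := k
      have k1' : (0 : ℝ) < A0 := by exact_mod_cast k1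
      have k2' : (0 : ℝ) < B0 := by exact_mod_cast k2
      have k3' : 9 * (((NN - A0 : ℕ) : ℝ) * ((NN - A0 : ℕ) : ℝ)) *
          ((4 * (U1 * V1) - A0 * B0 : ℕ) : ℝ) * (A1 * B1) +
          4 * (((4 * NN - 10 * n0 - 3 * (U0 + V0) : ℕ) : ℝ) *
            ((4 * NN - 10 * n0 - 3 * (U0 + V0) : ℕ) : ℝ)) * (A0 * B0) * (A1 * B1) ≤
          12 * (A1 * B1 + U0 * B1 + V0 * A1) * (J + 3 * (U0 * A0 + V0 * B0)) * (A0 * B0) := by
        exact_mod_cast k3
      have hf : ((4 * (U1 * V1) - A0 * B0 : ℕ) : ℝ) =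
          max (4 * ((U1 : ℝ) * V1) - A0 * B0) 0 := by
        have := tsub_max (4 * (U1 * V1)) (A0 * B0)
        push_cast at this
        exact this
      have hcc : (NN : ℝ) - a ≤ ((NN - A0 : ℕ) : ℝ) := by
        have := tsub_ge NN A0
        linarith
      show 9 * ((NN : ℝ) - a) ^ 2 * max (4 * (P * Q) - 1) 0
        + 4 * (4 * (NN : ℝ) - 10 * n - 3 * (P * a + Q * b)) ^ 2 ≤
        12 * (1 + P + Q) * (J3 (NN : ℝ) n + 3 * (P * a * a + Q * b * b))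
      exact alpha_core k1' k2' (k1'.trans_le (hA0.trans hA1)) (k2'.trans_le (hB0.trans hB1)) pP pQ
        (by linarith) hcc ((mul_le_mul_of_nonneg_left hA0 pP).trans hU1)
        ((mul_le_mul_of_nonneg_left hB0 pQ).trans hV1) hf hX0 hXb hWb (by positivity) hR hE0 k3'
    · -- beta
      simp only [if_true, Bool.and_eq_true, Nat.blt_eq, Nat.ble_eq] at k
      obtain ⟨⟨k1, k2⟩, k3⟩ := k
      have k1' : (0 : ℝ) < A1 := by exact_mod_cast k1
      have k2' : (0 : ℝ) < B1 := by exact_mod_cast k2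
      set t3 : ℕ := (NN - A0) * (3 * (NN * NN) - (J + 3 * (U0 * A0))) -
        (NN - 4 * n1) * (NN * NN) with ht3
      set X3 : ℕ := 4 * NN - 10 * n0 - 3 * (U0 + V0) with hX3
      have k3' : 3 * ((t3 : ℝ) * t3) * (B1 * (A1 * B1 + U0 * B1 + V0 * A1)) +
          4 * ((NN : ℝ) * NN) * ((X3 : ℝ) * X3) * (A1 * B1) *
            ((J + 3 * (U0 * A0)) * B1 + 3 * ((NN : ℝ) * NN) * V0) ≤
          12 * ((NN : ℝ) * NN) * (J + 3 * (U0 * A0 + V0 * B0)) *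
            (((J + 3 * (U0 * A0)) * B1 + 3 * ((NN : ℝ) * NN) * V0) *
              (A1 * B1 + U0 * B1 + V0 * A1)) := by
        exact_mod_cast k3
      have hD0 : 0 < J3 (NN : ℝ) n + 3 * (P * a) * a + 3 * ((NN : ℝ) * NN) * Q := by
        have e1 := J3_pos (N := (NN : ℝ)) (n := n) hN
        have e2 : 0 ≤ P * a * a := mul_nonneg pu pa
        have e3 : 0 ≤ ((NN : ℝ) * NN) * Q := by positivity
        linarith
      have hD : ((J : ℝ) + 3 * (U0 * A0)) * B1 + 3 * ((NN : ℝ) * NN) * V0 ≤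
          (J3 (NN : ℝ) n + 3 * (P * a) * a + 3 * ((NN : ℝ) * NN) * Q) * B1 := by
        have e2 : (V0 : ℝ) ≤ Q * B1 := hV0.trans (mul_le_mul_of_nonneg_left hB1 pQ)
        have e3 : ((NN : ℝ) * NN) * V0 ≤ ((NN : ℝ) * NN) * (Q * B1) :=
          mul_le_mul_of_nonneg_left e2 (by positivity)
        have e4 := mul_le_mul_of_nonneg_right hq cB1
        nlinarith
      have ht : max (((NN : ℝ) - a) * (3 * ((NN : ℝ) * NN) - (J3 (NN : ℝ) n + 3 * (P * a) * a))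
          - ((NN : ℝ) - 4 * n) * ((NN : ℝ) * NN)) 0 ≤ (t3 : ℝ) := by
        refine max_le ?_ (Nat.cast_nonneg _)
        have e1 := tsub_ge ((NN - A0) * (3 * (NN * NN) - (J + 3 * (U0 * A0))))
          ((NN - 4 * n1) * (NN * NN))
        have e2 := tsub_ge NN A0
        have e3 := tsub_ge (3 * (NN * NN)) (J + 3 * (U0 * A0))
        have e4 := tsub_max NN (4 * n1)
        rw [← ht3] at e1
        rw [Nat.cast_mul (NN - A0), Nat.cast_mul (NN - 4 * n1), e4] at e1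
        have e5 : max ((NN : ℝ) - ((4 * n1 : ℕ) : ℝ)) 0 ≤ (NN : ℝ) - 4 * n := by
          push_cast
          exact max_le (by linarith) (by linarith)
        have e6 : ((NN : ℝ) - a) * (3 * ((NN : ℝ) * NN) - (J3 (NN : ℝ) n + 3 * (P * a) * a)) ≤
            ((NN - A0 : ℕ) : ℝ) * ((3 * (NN * NN) - (J + 3 * (U0 * A0)) : ℕ) : ℝ) := by
          push_cast at e3
          have e8 := mul_pos hN hN
          apply mul_le_mul
          · linarith
          · linarith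
          · linarith
          · exact Nat.cast_nonneg _
        have e7 := mul_le_mul_of_nonneg_right e5 (mul_pos hN hN).le
        push_cast at e1 e6 e7 ⊢
        linarith
      show 3 * max (((NN : ℝ) - a) * (3 * ((NN : ℝ) * NN) - (J3 (NN : ℝ) n + 3 * (P * a) * a))
          - ((NN : ℝ) - 4 * n) * ((NN : ℝ) * NN)) 0 ^ 2
          / (J3 (NN : ℝ) n + 3 * (P * a) * a + 3 * ((NN : ℝ) * NN) * Q)
        + 4 * ((NN : ℝ) * NN) * (4 * (NN : ℝ) - 10 * n - 3 * (P * a + Q * b)) ^ 2 / (1 + P + Q) ≤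
        12 * ((NN : ℝ) * NN) * (J3 (NN : ℝ) n + 3 * (P * a * a + Q * b * b))
      exact beta_core (le_max_right _ _) ht hX0 hXb hWb hD hR
        (by positivity) (by positivity) hD0 hE0 cB1 (by positivity) k3'

end Pool.Agent.Helper27.PHV
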